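import Mathlib
import Pool.Agent.H.MP_e44225_nt.Main

namespace Pool.Agent.Results.MP_e44225_nt.NoUniformLog

/-- Data: `k = ℚ`, `X = ℙ¹`, `D = (0) + (1) + (∞)`, `A = O(1)`, `r = 1`, `S = {∞} ∪ P`.
`hK`, `hA`, `m` are arbitrary representatives (modulo bounded functions) of the height for the
canonical sheaf `O(-2)`, the height for `O(1)` and the proximity function `m_S(D, ·)`. -/
theorem result (C : ℝ) (hC : 0 < C) :
    ∃ P : Finset ℕ, (∀ p ∈ P, p.Prime) ∧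
      ∀ (hK hA m : ℚ → ℝ) (B : ℝ),
        (∀ x, |hK x - (-2) * Height.logHeight₁ x| ≤ B) →
        (∀ x, |hA x - Height.logHeight₁ x| ≤ B) →
        (∀ x, x ≠ 0 → x ≠ 1 →
          |m x - ((Real.posLog |(x : ℝ)| + Real.posLog |((x⁻¹ : ℚ) : ℝ)| +
              Real.posLog |(((x - 1)⁻¹ : ℚ) : ℝ)|) +
            ∑ p ∈ P, (Real.posLog (padicNorm p x : ℝ) + Real.posLog (padicNorm p x⁻¹ : ℝ) +
              Real.posLog (padicNorm p (x - 1)⁻¹ : ℝ)))| ≤ B) →
        Set.Infinite {x : ℚ | x ≠ 0 ∧ x ≠ 1 ∧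
          ¬ (hK x + m x < C * Real.posLog (hA x) + Real.log |(NumberField.discr ℚ : ℝ)|)} :=
  Pool.Agent.H.MP_e44225_nt.main C hC

end Pool.Agent.Results.MP_e44225_nt.NoUniformLog
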